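import Pool.Agent.N273.LT.Sum3

/-!
# The average doubling index is bounded on every Liouville torus

The torus is `ℝ × ℝ` modulo the lattice generated by `(L, 0)` and `(0, 2π)`, with a Liouville metric
`(f(x) + g(y))(dx² + dy²)`, where `f` and `g` are any continuous functions (`L`- and `2π`-periodic)
with `f(x) + g(y) > 0`; no smoothness, analyticity or genericity is assumed, and there is no
condition on the multiplicities of the eigenvalues or on the form of the eigenfunctions.

The question of Nazarov, Polterovich and Sodin has a positive answer for these tori: for all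
constants `C`, `C₁`, `C₂` the average of the doubling indices over the discs of every admissible
covering is bounded by a constant which does not depend on the eigenfunction and the covering.
(The individual doubling indices are not bounded in general: on the flat torus an eigenvalue of
large multiplicity has eigenfunctions which vanish to a high order at a point.)

Proof. (i) Every eigenspace is finite dimensional and is spanned by joint eigenfunctions of `Δ/ρ`
and `∂_x² + λ f`, so that on every line `y = const` or `x = const` every eigenfunction is a sum of
periodic solutions of Sturm–Liouville equations `w'' = (ν - q) w` with one and the same `q` and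
`|ν - q| ≤ C λ`.  By Sturm's theorem on sums of eigenfunctions it changes sign at most `C √λ` times
on every such line.  (ii) Local estimate: let `Δ Φ + (F(x) + G(y)) Φ = 0` with small `F`, `G` in a box
of size one.  With a positive solution `u = A(x) B(y)` and the conjugate function `Ψ` defined by
`(uΨ)_y = u² (Φ/u)_x`, `(uΨ)_x = -u² (Φ/u)_y`, the function `V = Φ + iΨ` solves
`∂̄ V = q conj(V)`, and by the similarity principle `V = exp(S) H` with a bounded `S` and a
holomorphic `H`.  The integral of `log |H|` over a disc of radius `1/2` changes, when the centre
moves, by an integral of the variation of the argument of `H` along segments, which is controlled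
by the number of sign changes of `Φ` on them.  With Jensen's inequality the growth of `|Φ|` from one
box to the next is at most `exp (C (1 + Z))`, where `Z` is the integral of the numbers of sign
changes of `Φ` on vertical and horizontal segments.  (iii) Summation over the discs, by the
superadditivity of the number of sign changes and Fubini's theorem.
-/

set_option autoImplicit false

namespace Pool.Agent.Results.MP_c7f82c_an.AllLiouvilleTori

open Pool.Agent.Y291.DB

/-- Let `f`, `g` be continuous, `L`-periodic and `2π`-periodic, with `f(x) + g(y) > 0`, and consider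
the torus `ℝ²/(Lℤ × 2πℤ)` with the metric `(f(x) + g(y))(dx² + dy²)`. For all `C, C₁, C₂ > 0` there
is `A` such that for every `lam > 0`, every eigenfunction `φ` with eigenvalue `lam` and every
admissible covering for `φ` with the constants `C`, `C₁`, `C₂` the average of the doubling indices of
the discs is at most `A`. -/
theorem result (f g : ℝ → ℝ) (L : ℝ) (hL : 0 < L) (hf : Continuous f) (hg : Continuous g)
    (hfL : ∀ x, f (x + L) = f x) (hgp : ∀ y, g (y + 2 * Real.pi) = g y)
    (hpos : ∀ x y, 0 < f x + g y) (C C₁ C₂ : ℝ) (hC : 0 < C) (hC₁ : 0 < C₁) (hC₂ : 0 < C₂) :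
    ∃ A : ℝ, 0 < A ∧ ∀ (lam : ℝ) (φ : ℝ × ℝ → ℝ), Eigen (fun p => f p.1 + g p.2) L 0 lam φ →
      ∀ (ι : Type) [Fintype ι] (c : ι → ℝ × ℝ),
        Admissible (fun p => f p.1 + g p.2) L 0 lam φ C C₁ C₂ c →
        (∑ i, doubling (fun p => f p.1 + g p.2) L 0 φ (c i) (C / Real.sqrt lam)) /
          Fintype.card ι ≤ A := by
  obtain ⟨a, ha, h⟩ := Pool.Agent.N273.LT.sum_bound hf hg hL hfL hgp hpos hC hC₁
  refine ⟨a * (1 + C₂), by positivity, fun lam φ hφ ι _ c hc => ?_⟩
  have hlam := hφ.pos
  have h1 : (0 : ℝ) < Fintype.card ι := lt_of_lt_of_le (by positivity) hc.lower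
  have h2 : (1 : ℝ) ≤ Fintype.card ι := by
    have h3 : 0 < Fintype.card ι := by exact_mod_cast h1
    exact_mod_cast h3
  have h4 : lam ≤ C₂ * Fintype.card ι := by
    have := hc.lower
    rw [inv_mul_le_iff₀ hC₂] at this
    exact this
  rw [div_le_iff₀ h1]
  calc ∑ i, doubling (fun p => f p.1 + g p.2) L 0 φ (c i) (C / Real.sqrt lam)
      ≤ ∑ i, max (doubling (fun p => f p.1 + g p.2) L 0 φ (c i) (C / Real.sqrt lam)) 0 :=
        Finset.sum_le_sum fun i _ => le_max_left _ _
    _ ≤ a * (1 + lam) := h lam φ hφ ι c hc.mult
    _ ≤ a * (1 + C₂) * Fintype.card ι := by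
        have h5 : 1 + lam ≤ (1 + C₂) * Fintype.card ι := by linarith
        calc a * (1 + lam) ≤ a * ((1 + C₂) * Fintype.card ι) :=
              mul_le_mul_of_nonneg_left h5 ha.le
          _ = _ := by ring

end Pool.Agent.Results.MP_c7f82c_an.AllLiouvilleTori
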