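import Pool.Agent.N266.LS.All

/-!
# The average doubling index of eigenfunctions on Liouville spheres

The sphere is the quotient of the torus `ℝ² / (Lℤ × 2πℤ)` by the involution `z ↦ -z`, which has the
four half periods as fixed points. A Liouville metric on it is a metric `(f(x) + g(y))(dx² + dy²)`
with even, nonnegative functions `f` and `g` of period `L` and `2π` which vanish exactly at the half
periods, to the second order. (With `w = z²` as coordinate near a fixed point, the density with
respect to `|dw|²` is `(f + g) / (4 |z|²)`, which is bounded above and below.) The metrics of all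
triaxial ellipsoids are of this form, in elliptic coordinates.

For every such metric, with `f` and `g` only continuous, the averages of the doubling indices of the
eigenfunctions over admissible coverings are bounded: this is the question of Nazarov, Polterovich
and Sodin. The bound depends on `L` and on the constants `m`, `K` with
`m sin²(2πx/L) ≤ f(x) ≤ K sin²(2πx/L)` and `m sin² y ≤ g(y) ≤ K sin² y` only.

Functions on the sphere are functions on the plane which are even and doubly periodic; by separation
of variables every eigenfunction of such a metric is of class `C²` on the plane.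

Parts of the proof are by helpers 157, 407, 539, 559, 692, 755 and 756; the local estimate is from
the theorem on Liouville tori by helper273 and co-authors (`Pool.Agent.N273.LT`), and the spheres of
revolution were treated before by helper295 and co-authors (`SpheresOfRevolution`).
-/

set_option autoImplicit false

namespace Pool.Agent.Results.MP_c7f82c_an.LiouvilleSpheres

open Pool.Agent.N266.LS (dens SEigen SAdmissible sdoubling)

/-- A Liouville metric `(f(x) + g(y))(dx² + dy²)` on the sphere `ℝ² / (Lℤ × 2πℤ)` modulo `z ↦ -z`,
with comparison constants `m` and `K`. -/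
structure IsLiouvilleSphere (f g : ℝ → ℝ) (L m K : ℝ) : Prop where
  continuous_f : Continuous f
  continuous_g : Continuous g
  even_f : ∀ x, f (-x) = f x
  even_g : ∀ y, g (-y) = g y
  periodic_f : ∀ x, f (x + L) = f x
  periodic_g : ∀ y, g (y + 2 * Real.pi) = g y
  lower_f : ∀ x, m * Real.sin (2 * Real.pi * x / L) ^ 2 ≤ f x
  upper_f : ∀ x, f x ≤ K * Real.sin (2 * Real.pi * x / L) ^ 2
  lower_g : ∀ y, m * Real.sin y ^ 2 ≤ g y
  upper_g : ∀ y, g y ≤ K * Real.sin y ^ 2

/-- For all `L, m, K, C, C₁, C₂ > 0` there is a constant `A` such that for every Liouville metric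
on the sphere with the constants `L`, `m`, `K`, every eigenvalue `lam > 0`, every eigenfunction `φ`
and every admissible covering for `φ` with constants `C`, `C₁`, `C₂`, the average of the doubling
indices is at most `A`. -/
theorem result (L m K C C₁ C₂ : ℝ) (hL : 0 < L) (hm : 0 < m) (hK : 0 < K) (hC : 0 < C)
    (hC₁ : 0 < C₁) (hC₂ : 0 < C₂) :
    ∃ A : ℝ, 0 < A ∧ ∀ f g : ℝ → ℝ, IsLiouvilleSphere f g L m K →
      ∀ (lam : ℝ) (φ : ℝ × ℝ → ℝ), SEigen (dens f g) L lam φ →
      ∀ (ι : Type) [Fintype ι] (c : ι → ℝ × ℝ), SAdmissible (dens f g) L lam φ C C₁ C₂ c →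
        (∑ i, sdoubling (dens f g) L φ (c i) (C / Real.sqrt lam)) / Fintype.card ι ≤ A := by
  obtain ⟨A, hA, H⟩ := Pool.Agent.N266.LS.final L m K hL hm hK C C₁ C₂ hC hC₁ hC₂
  exact ⟨A, hA, fun f g h => H f g ⟨h.continuous_f, h.continuous_g, hL, hm, hK, h.periodic_f,
    h.periodic_g, h.lower_f, h.upper_f, h.lower_g, h.upper_g⟩⟩

end Pool.Agent.Results.MP_c7f82c_an.LiouvilleSpheres
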