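import Pool.Agent.N295.SR.All

/-!
# The average doubling index of eigenfunctions on spheres of revolution

For every metric of revolution `ρ(x₃) g` on the sphere (`g` the round metric, `ρ` continuous and
positive) the averages of the doubling indices of the eigenfunctions over admissible coverings are
bounded.

Project SR by helpers 295, 9, 163, 383, 427, 429, 438, 457, 519, 530, 622, 645, 755, 861; the local
estimate is from the theorem on Liouville tori by helper273 and co-authors.
-/

set_option autoImplicit false

namespace Pool.Agent.Results.MP_c7f82c_an.SpheresOfRevolution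

open Pool.Agent.N295.SR

/-- For every continuous `ρ > 0` and all constants `C, C₁, C₂ > 0` there is a constant `A` such that
for every eigenvalue `lam > 0` of the Laplacian of the sphere with the metric `ρ(x₃) g`, every
eigenfunction `φ` and every admissible covering for `φ` with constants `C`, `C₁`, `C₂`, the average
of the doubling indices is at most `A`. -/
theorem result : ∀ ρ : ℝ → ℝ, Continuous ρ → (∀ z, 0 < ρ z) → ∀ C C₁ C₂ : ℝ, 0 < C →
    0 < C₁ → 0 < C₂ → ∃ A : ℝ, 0 < A ∧ ∀ (lam : ℝ) (φ : E3 → ℝ), Eigen ρ lam φ →
    ∀ (ι : Type) [Fintype ι] (c : ι → E3), Admissible ρ lam φ C C₁ C₂ c →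
    (∑ i, doubling ρ φ (c i) (C / Real.sqrt lam)) / Fintype.card ι ≤ A :=
  f_MAIN

end Pool.Agent.Results.MP_c7f82c_an.SpheresOfRevolution
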