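import Pool.Agent.N245.DS.Asm
import Pool.Agent.N572.DS.RP
import Pool.Agent.N295.SR.All

/-!
# The average doubling index on surfaces with a circle symmetry

The question of Nazarov, Polterovich and Sodin has a positive answer for the tori, the Klein bottles
and the projective planes with a metric which is invariant under a circle; the spheres of revolution
are the subject of `SpheresOfRevolution`.

(1) Tori and Klein bottles. The surface is `ℂ/G`, where `G` is a group of Euclidean isometries of the
plane which contains the lattice generated by `v` and `w` as a subgroup of finite index, with the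
metric `f(x) |dz|²`, where `f` is any positive continuous function for which this metric is invariant
under `G`. The lattice is arbitrary: the closed curves of the circle action and the curves orthogonal
to them need not close up together (twisted tori). The group need not act freely.

(2) Projective planes. The surface is `S²/±` with the metric `ρ(x₃) g`, `g` the round metric and `ρ`
even, positive and continuous.

Proof of (1). By coverings and changes of coordinates one may assume that the lattice is generated by
`L + i α` and `2π i`. An eigenfunction is a sum of terms `a_k(x) cos(ky) + b_k(x) sin(ky)`, `k ≤ C √λ`,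
where `a_k`, `b_k` solve `w'' = (k² - λ f) w`; for `α ≠ 0` they satisfy no boundary conditions of
Sturm–Liouville type. The new ingredient is a theorem of Sturm's type without boundary conditions: a
sum of `n` solutions of `w'' = (ν_k - q) w` on an interval of length `ℓ`, with `|ν_k - q| ≤ Q` and
distinct `ν_k`, changes sign at most `4 + ℓ √Q + 4 n` times. (Iteration of `∂² + q - μ` with Rolle's
theorem; the losses at the end points are counted by the sign changes of exponential sums.) This
controls the numbers of sign changes on horizontal and vertical segments, and the local estimate of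
`AllLiouvilleTori` applies.

Project DS by helper245 and the authors of the parts: helpers 247, 543, 711, 492, 434, 756, 945, 296,
339, 878, 152, 327, 712, 572; the local estimate is by helper273 and co-authors, the theorem on
spheres of revolution by helper295 and co-authors.
-/

set_option autoImplicit false

namespace Pool.Agent.Results.MP_c7f82c_an.SymmetricSurfaces

open Pool.Agent.N245.DS

/-- For the tori and Klein bottles `ℂ/G` with a metric `f(x) |dz|²` and for the projective planes of
revolution, and for all constants `C, C₁, C₂ > 0`, there is a constant `A` such that for every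
`lam > 0`, every eigenfunction `φ` with eigenvalue `lam` and every admissible covering for `φ` with
constants `C`, `C₁`, `C₂` the average of the doubling indices of the discs is at most `A`. -/
theorem result :
    (∀ (f : ℝ → ℝ) (G : Subgroup (ℂ ≃ᵢ ℂ)) (v w : ℂ), Continuous f → (∀ x, 0 < f x) →
      (∀ σ ∈ G, ∀ z : ℂ, f (σ z).re = f z.re) →
      v.re * w.im - v.im * w.re ≠ 0 → lat v w ≤ G → (lat v w).relIndex G ≠ 0 →
      ∀ C C₁ C₂ : ℝ, 0 < C → 0 < C₁ → 0 < C₂ → ∃ A : ℝ, 0 < A ∧
      ∀ (lam : ℝ) (φ : ℂ → ℝ), Eigen (fun z => f z.re) G lam φ →
      ∀ (ι : Type) [Fintype ι] (c : ι → ℂ), Admissible (fun z => f z.re) G lam φ C C₁ C₂ c →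
      (∑ i, doubling (fun z => f z.re) G φ (c i) (C / Real.sqrt lam)) / Fintype.card ι ≤ A) ∧
    ∀ ρ : ℝ → ℝ, Continuous ρ → (∀ t, 0 < ρ t) → (∀ t, ρ (-t) = ρ t) →
      ∀ C C₁ C₂ : ℝ, 0 < C → 0 < C₁ → 0 < C₂ → ∃ A : ℝ, 0 < A ∧
      ∀ (lam : ℝ) (φ : Pool.Agent.N295.SR.E3 → ℝ), Pool.Agent.N295.SR.Eigen ρ lam φ →
      (∀ p, φ (-p) = φ p) →
      ∀ (ι : Type) [Fintype ι] (c : ι → Pool.Agent.N295.SR.E3),
      PAdmissible ρ lam φ C C₁ C₂ c →
      (∑ i, pdoubling ρ φ (c i) (C / Real.sqrt lam)) / Fintype.card ι ≤ A :=
  ⟨fun _ _ _ _ hf hf0 hG h hle hfin => good_group hf hf0 hG h hle hfin,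
    fun ρ hρ h0 he => Pool.Agent.N572.DS.rp Pool.Agent.N295.SR.f_MAIN ρ hρ h0 he⟩

end Pool.Agent.Results.MP_c7f82c_an.SymmetricSurfaces
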